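import Pool.Agent.H95.AD.TargetsU
import Pool.Agent.H27.LS.Additive

/-!
The module `DLS`: the dual of the additive large sieve.
-/

set_option autoImplicit false

open MeasureTheory Set Filter
open scoped Real

namespace Pool.Agent.H79.AD

open Pool.Agent.H95.AD
open Pool.Agent.H27.LS (trig additive_large_sieve)

private theorem ee_add (x y : ℝ) : ee (x + y) = ee x * ee y := by
  unfold ee
  rw [← Complex.exp_add]
  congr 1
  push_cast
  ring

private theorem norm_ee (x : ℝ) : ‖ee x‖ = 1 := by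
  unfold ee
  rw [Complex.norm_exp]
  simp

private theorem ee_int (m : ℤ) : ee (m : ℝ) = 1 := by
  unfold ee
  rw [Complex.exp_eq_one_iff]
  exact ⟨m, by push_cast; ring⟩

private theorem ee_zero : ee 0 = 1 := by
  simp [ee]

theorem nd_le_abs (x : ℝ) (m : ℤ) : nd x ≤ |x - m| := by
  unfold nd
  exact round_le x m

theorem nd_le_half (x : ℝ) : nd x ≤ 1 / 2 := abs_sub_round x

/-- The primal inequality. -/
theorem dls_primal {ι : Type} (s : Finset ι) (x : ι → ℝ) (δ : ℝ) (W : ℕ) (b : ℕ → ℂ)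
    (hδ : 0 < δ) (hsp : ∀ i ∈ s, ∀ j ∈ s, i ≠ j → δ ≤ nd (x i - x j)) :
    ∑ i ∈ s, ‖∑ n ∈ Finset.range W, b n * ee (x i * n)‖ ^ 2 ≤
      (δ⁻¹ + 4 * π * W) * ∑ n ∈ Finset.range W, ‖b n‖ ^ 2 := by
  classical
  have hπ : 0 < π := Real.pi_pos
  have hB : 0 ≤ ∑ n ∈ Finset.range W, ‖b n‖ ^ 2 := Finset.sum_nonneg (fun _ _ => by positivity)
  rcases Nat.lt_or_ge s.card 2 with hs | hs
  · -- at most one element
    have h1 : ∀ i ∈ s, ‖∑ n ∈ Finset.range W, b n * ee (x i * n)‖ ^ 2 ≤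
        W * ∑ n ∈ Finset.range W, ‖b n‖ ^ 2 := by
      intro i _
      have h2 : ‖∑ n ∈ Finset.range W, b n * ee (x i * n)‖ ≤ ∑ n ∈ Finset.range W, ‖b n‖ := by
        refine (norm_sum_le _ _).trans (le_of_eq ?_)
        apply Finset.sum_congr rfl
        intro n _
        rw [norm_mul, norm_ee, mul_one]
      have h3 := Finset.sum_mul_sq_le_sq_mul_sq (Finset.range W) (fun _ => (1 : ℝ))
        (fun n => ‖b n‖)
      simp only [one_mul, one_pow, Finset.sum_const, Finset.card_range, nsmul_eq_mul,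
        mul_one] at h3
      exact (pow_le_pow_left₀ (norm_nonneg _) h2 2).trans h3
    refine (Finset.sum_le_sum h1).trans ?_
    rw [Finset.sum_const, nsmul_eq_mul]
    have h4 : (s.card : ℝ) ≤ 1 := by
      have : s.card ≤ 1 := by omega
      exact_mod_cast this
    have h5 : (0 : ℝ) ≤ (W : ℝ) * ∑ n ∈ Finset.range W, ‖b n‖ ^ 2 := by positivity
    have h6 : (W : ℝ) ≤ δ⁻¹ + 4 * π * W := by
      have h7 : (0 : ℝ) < δ⁻¹ := by positivity
      have h8 : (3 : ℝ) < π := Real.pi_gt_three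
      have h9 : (0 : ℝ) ≤ W := Nat.cast_nonneg _
      nlinarith
    calc (s.card : ℝ) * (W * ∑ n ∈ Finset.range W, ‖b n‖ ^ 2) ≤
          1 * (W * ∑ n ∈ Finset.range W, ‖b n‖ ^ 2) := mul_le_mul_of_nonneg_right h4 h5
      _ = W * ∑ n ∈ Finset.range W, ‖b n‖ ^ 2 := one_mul _
      _ ≤ _ := mul_le_mul_of_nonneg_right h6 hB
  · -- at least two elements
    obtain ⟨i₁, hi₁, i₂, hi₂, h12⟩ := Finset.one_lt_card.1 (by omega : 1 < s.card)
    have hδ1 : δ ≤ 1 / 2 := (hsp i₁ hi₁ i₂ hi₂ h12).trans (nd_le_half _)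
    obtain ⟨i₀, hi₀, hmin⟩ := Finset.exists_min_image s (fun i => Int.fract (x i)) ⟨i₁, hi₁⟩
    have hd1 : ∀ i ∈ s, ∀ j ∈ s, i ≠ j → δ ≤ |Int.fract (x i) - Int.fract (x j)| := by
      intro i hi j hj hij
      refine (hsp i hi j hj hij).trans ?_
      refine (nd_le_abs _ (⌊x i⌋ - ⌊x j⌋)).trans (le_of_eq ?_)
      congr 1
      rw [← Int.self_sub_floor, ← Int.self_sub_floor]
      push_cast
      ring
    have hd2 : ∀ i ∈ s, i ≠ i₀ → Int.fract (x i) - Int.fract (x i₀) ≤ 1 - δ := by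
      intro i hi hij
      have h1 := (hsp i hi i₀ hi₀ hij).trans (nd_le_abs _ (⌊x i⌋ - ⌊x i₀⌋ + 1))
      have h2 : x i - x i₀ - ((⌊x i⌋ - ⌊x i₀⌋ + 1 : ℤ) : ℝ) =
          Int.fract (x i) - Int.fract (x i₀) - 1 := by
        rw [← Int.self_sub_floor, ← Int.self_sub_floor]
        push_cast
        ring
      rw [h2, abs_of_nonpos] at h1
      · linarith
      · have := Int.fract_lt_one (x i)
        have := Int.fract_nonneg (x i₀)
        linarith
    have h := additive_large_sieve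
      (fun n => b n * ee ((Int.fract (x i₀) - δ / 2) * n)) W hδ s
      (fun i => Int.fract (x i) - Int.fract (x i₀) + δ / 2) (by
        intro i hi
        have h1 := hmin i hi
        refine ⟨by linarith, ?_⟩
        by_cases hii : i = i₀
        · rw [hii]; linarith
        · have := hd2 i hi hii
          linarith) (by
        intro i hi j hj hij
        refine (hd1 i hi j hj hij).trans (le_of_eq ?_)
        congr 1
        ring)
    simp only [norm_mul, norm_ee, mul_one] at h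
    refine le_trans (le_of_eq ?_) h
    apply Finset.sum_congr rfl
    intro i _
    congr 2
    unfold trig
    apply Finset.sum_congr rfl
    intro n _
    have h2 : Complex.exp (2 * π * Complex.I * n *
        ((Int.fract (x i) - Int.fract (x i₀) + δ / 2 : ℝ) : ℂ)) =
        ee ((Int.fract (x i) - Int.fract (x i₀) + δ / 2) * n) := by
      unfold ee
      congr 1
      push_cast
      ring
    have h3 : ee (x i * n) = ee ((Int.fract (x i₀) - δ / 2) * n) *
        ee ((Int.fract (x i) - Int.fract (x i₀) + δ / 2) * n) := by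
      rw [← ee_add]
      have h4 : x i * n = ((Int.fract (x i₀) - δ / 2) * n +
          (Int.fract (x i) - Int.fract (x i₀) + δ / 2) * n) + ((⌊x i⌋ * (n : ℤ) : ℤ) : ℝ) := by
        rw [← Int.self_sub_floor (x i)]
        push_cast
        ring
      rw [h4, ee_add, ee_int, mul_one]
    rw [h3, h2]
    ring

theorem pf_DLS : T_DLS := by
  classical
  have hπ : 0 < π := Real.pi_pos
  refine ⟨4 * π, by positivity, ?_⟩
  intro ι s x c δ Y Z hδ hYZ hsp
  obtain ⟨W, rfl⟩ := Nat.exists_eq_add_of_le hYZ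
  set c' : ι → ℂ := fun i => c i * ee (x i * Y) with hc'
  set T : ℕ → ℂ := fun n => ∑ i ∈ s, c' i * ee (x i * n) with hT
  set S : ℝ := ∑ n ∈ Finset.range W, ‖T n‖ ^ 2 with hS
  set A : ℝ := ∑ i ∈ s, ‖c i‖ ^ 2 with hA
  set K : ℝ := δ⁻¹ + 4 * π * W with hK
  have hK0 : 0 < K := by positivity
  have hA0 : 0 ≤ A := Finset.sum_nonneg (fun _ _ => by positivity)
  have hS0 : 0 ≤ S := Finset.sum_nonneg (fun _ _ => by positivity)
  have hLHS : ∑ D ∈ Finset.Ico Y (Y + W), ‖∑ i ∈ s, c i * ee (x i * D)‖ ^ 2 = S := by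
    rw [Finset.sum_Ico_eq_sum_range, Nat.add_sub_cancel_left, hS]
    apply Finset.sum_congr rfl
    intro n _
    congr 2
    simp only [hT]
    apply Finset.sum_congr rfl
    intro i _
    simp only [hc']
    rw [mul_assoc, ← ee_add]
    congr 2
    push_cast
    ring
  rw [hLHS]
  -- duality
  have h1 : (S : ℂ) = ∑ i ∈ s, c' i * ∑ n ∈ Finset.range W, (starRingEnd ℂ) (T n) * ee (x i * n) := by
    simp only [Finset.mul_sum]
    rw [Finset.sum_comm, hS]
    push_cast
    apply Finset.sum_congr rfl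
    intro n _
    have h2 : ((‖T n‖ : ℂ)) ^ 2 = (starRingEnd ℂ) (T n) * T n := by
      rw [mul_comm, Complex.mul_conj, Complex.normSq_eq_norm_sq]
      push_cast
      rfl
    rw [h2]
    conv_lhs => rw [hT]
    simp only
    rw [Finset.mul_sum]
    apply Finset.sum_congr rfl
    intro i _
    ring
  have h2 : S ≤ ∑ i ∈ s, ‖c' i‖ * ‖∑ n ∈ Finset.range W, (starRingEnd ℂ) (T n) * ee (x i * n)‖ := by
    have h3 : S = ‖(S : ℂ)‖ := by
      rw [Complex.norm_real, Real.norm_of_nonneg hS0]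
    rw [h3, h1]
    refine (norm_sum_le _ _).trans (le_of_eq ?_)
    apply Finset.sum_congr rfl
    intro i _
    rw [norm_mul]
  have h3 := Finset.sum_mul_sq_le_sq_mul_sq s (fun i => ‖c' i‖)
    (fun i => ‖∑ n ∈ Finset.range W, (starRingEnd ℂ) (T n) * ee (x i * n)‖)
  have h4 := dls_primal s x δ W (fun n => (starRingEnd ℂ) (T n)) hδ hsp
  have h5 : ∑ n ∈ Finset.range W, ‖(starRingEnd ℂ) (T n)‖ ^ 2 = S := by
    simp only [RCLike.norm_conj]
    rfl
  rw [h5] at h4
  have h6 : ∑ i ∈ s, ‖c' i‖ ^ 2 = A := by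
    simp only [hc', norm_mul, norm_ee, mul_one]
    rfl
  rw [h6] at h3
  have h7 : S ^ 2 ≤ A * (K * S) :=
    (pow_le_pow_left₀ hS0 h2 2).trans (h3.trans (mul_le_mul_of_nonneg_left h4 hA0))
  have h8 : S ≤ K * A := by
    rcases hS0.eq_or_lt with h0 | h0
    · rw [← h0]; positivity
    · have h9 : S * S ≤ (K * A) * S := by nlinarith
      exact le_of_mul_le_mul_right h9 h0
  refine h8.trans ?_
  apply mul_le_mul_of_nonneg_right _ hA0
  have h9 : δ⁻¹ = 1 / δ := inv_eq_one_div δ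
  have h10 : (0 : ℝ) < 1 / δ := by positivity
  have h11 : (3 : ℝ) < π := Real.pi_gt_three
  rw [hK, h9]
  push_cast
  nlinarith

end Pool.Agent.H79.AD
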