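import Pool.Agent.H65.AD.TargetsB

/-!
The module `GSB`: the coefficient of the pair `(r, t)`.
-/

set_option autoImplicit false

open MeasureTheory Set Filter
open scoped Real

namespace Pool.Agent.H79.AD

open Pool.Agent.H31.CN Pool.Agent.H95.AD Pool.Agent.H50.CN Pool.Agent.H65.AD

/-- The product of the powers of the primes. -/
theorem gsb_prod (r t : ℕ) (h : Squarefree (r * t)) :
    ∏ p ∈ (r * t).primeFactors, (p : ℝ) ^ (cl r t p) = (r : ℝ) * (t : ℝ) ^ 2 := by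
  have hr0 : r ≠ 0 := fun h0 => by simp [h0] at h
  have ht0 : t ≠ 0 := fun h0 => by simp [h0] at h
  have hcop : Nat.Coprime r t := Nat.coprime_of_squarefree_mul h
  have hr : Squarefree r := h.of_mul_left
  have ht : Squarefree t := h.of_mul_right
  rw [Nat.primeFactors_mul hr0 ht0, Finset.prod_union hcop.disjoint_primeFactors]
  have h1 : ∏ p ∈ r.primeFactors, (p : ℝ) ^ (cl r t p) = r := by
    have h2 : ∏ p ∈ r.primeFactors, (p : ℝ) ^ (cl r t p) = ∏ p ∈ r.primeFactors, (p : ℝ) := by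
      apply Finset.prod_congr rfl
      intro p hp
      unfold cl
      rw [if_pos (Nat.dvd_of_mem_primeFactors hp), pow_one]
    rw [h2, ← Nat.cast_prod, Nat.prod_primeFactors_of_squarefree hr]
  have h3 : ∏ p ∈ t.primeFactors, (p : ℝ) ^ (cl r t p) = (t : ℝ) ^ 2 := by
    have h2 : ∏ p ∈ t.primeFactors, (p : ℝ) ^ (cl r t p) =
        ∏ p ∈ t.primeFactors, (p : ℝ) ^ 2 := by
      apply Finset.prod_congr rfl
      intro p hp
      unfold cl
      have hpp := Nat.prime_of_mem_primeFactors hp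
      have hpt := Nat.dvd_of_mem_primeFactors hp
      have hpr : ¬ p ∣ r := fun hpr => hpp.one_lt.ne'
        (Nat.eq_one_of_dvd_coprimes hcop hpr hpt)
      rw [if_neg hpr, if_pos hpt]
    rw [h2, Finset.prod_pow, ← Nat.cast_prod, Nat.prod_primeFactors_of_squarefree ht]
  rw [h1, h3]

theorem gsb_cl (r t p : ℕ) (hp : p ∈ (r * t).primeFactors) : cl r t p = 1 ∨ cl r t p = 2 := by
  have hpp := Nat.prime_of_mem_primeFactors hp
  have hd := Nat.dvd_of_mem_primeFactors hp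
  unfold cl
  by_cases h1 : p ∣ r
  · left
    rw [if_pos h1]
  · right
    rw [if_neg h1, if_pos]
    exact (hpp.dvd_mul.1 hd).resolve_left h1

theorem gsb_tt (p m₁ m₂ : ℕ) : tt p m₁ m₂ ≤ 2 := by
  unfold tt
  split_ifs <;> omega

theorem gsb_card (w : ℕ) (hw : Squarefree w) :
    ((w.divisors.card : ℕ) : ℝ) = 2 ^ w.primeFactors.card := by
  rw [Nat.card_divisors hw.ne_zero]
  have h1 : ∏ x ∈ w.primeFactors, (w.factorization x + 1) = ∏ x ∈ w.primeFactors, 2 := by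
    apply Finset.prod_congr rfl
    intro p hp
    have h2 := hw.natFactorization_le_one p
    have h3 := (Nat.prime_of_mem_primeFactors hp).factorization_pos_of_dvd hw.ne_zero
      (Nat.dvd_of_mem_primeFactors hp)
    omega
  rw [h1, Finset.prod_const]
  push_cast
  rfl

/-- The local elements are bounded. -/
theorem gsb_BD (hGLE : T_GLE) (r t n₁ n₂ : ℕ) (h : Squarefree (r * t)) :
    BD (6 ^ (r * t).primeFactors.card / ((r : ℝ) * (t : ℝ) ^ 2)) (2 * Real.log ((r * t : ℕ) : ℝ))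
      (∏ p ∈ (r * t).primeFactors, gel (ec (cl r t p) (tt p n₁ n₂)) (tt p n₁ n₂) p) := by
  have h1 := BD_prod (r * t).primeFactors (V := fun p => 6 / (p : ℝ) ^ (cl r t p))
    (Z := fun p => 2 * Real.log p)
    (r := fun p => gel (ec (cl r t p) (tt p n₁ n₂)) (tt p n₁ n₂) p)
    (fun p _ => by positivity) (by
      intro p hp
      have hpp := Nat.prime_of_mem_primeFactors hp
      have hp0 : (0 : ℝ) < p := by exact_mod_cast hpp.pos
      refine BD_mono (hGLE.2 (cl r t p) (tt p n₁ n₂) p (gsb_cl r t p hp) (gsb_tt _ _ _) hpp) ?_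
        le_rfl
      apply div_le_div_of_nonneg_right _ (by positivity)
      split_ifs <;> norm_num)
  refine BD_mono h1 (le_of_eq ?_) (le_of_eq ?_)
  · rw [Finset.prod_div_distrib, gsb_prod r t h, Finset.prod_const]
  · rw [← Finset.mul_sum]
    congr 1
    rw [← Real.log_prod (fun p hp => by
      have := (Nat.prime_of_mem_primeFactors hp).pos
      positivity), ← Nat.cast_prod, Nat.prod_primeFactors_of_squarefree h]

theorem mo00_mul (hMOM : T_MOM) (r s : GR) : mo 0 0 (r * s) = mo 0 0 r * mo 0 0 s := by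
  rw [hMOM 0 0 r s]
  simp

theorem mo00_le {V Z : ℝ} {r : GR} (h : BD V Z r) : |mo 0 0 r| ≤ V := by
  have h1 := h (fun v => v.1 ^ 0 * v.2 ^ 0) 1 zero_le_one (fun v _ _ => by simp)
  rw [mul_one] at h1
  exact h1

theorem gsb_ev (B A₀ c : ℝ) (hc : 0 < c) :
    ∃ X₀ : ℝ, ∀ X : ℝ, X₀ ≤ X → B + 2 * (A₀ * Real.log (Real.log X)) ≤ c * Real.log X := by
  have h1 : Tendsto (fun y : ℝ => (B + 2 * (A₀ * Real.log y)) / y) atTop (nhds 0) := by
    have h2 : Tendsto (fun y : ℝ => Real.log y / y) atTop (nhds 0) :=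
      Real.isLittleO_log_id_atTop.tendsto_div_nhds_zero
    have h3 : Tendsto (fun y : ℝ => B / y) atTop (nhds 0) := tendsto_const_nhds.div_atTop tendsto_id
    have h4 := h3.add (h2.const_mul (2 * A₀))
    rw [mul_zero, add_zero] at h4
    refine h4.congr (fun y => ?_)
    ring
  have h5 := h1.comp Real.tendsto_log_atTop
  have h6 : ∀ᶠ X : ℝ in atTop, B + 2 * (A₀ * Real.log (Real.log X)) ≤ c * Real.log X := by
    filter_upwards [h5.eventually (gt_mem_nhds hc), Real.tendsto_log_atTop.eventually_gt_atTop 0]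
      with X hX hX2
    simp only [Function.comp] at hX
    rw [div_lt_iff₀ hX2] at hX
    exact hX.le
  exact eventually_atTop.1 h6

theorem pf_GSB (hKL : T_KL) (hGID : T_GID) (hGLE : T_GLE) (hABS : T_ABS) (hMOM : T_MOM) :
    T_GSB := by
  intro P θ κ L₀ A₀ hP hθ0 hθ1 hκ hA₀
  obtain ⟨K₀, hK₀, hKL1⟩ := hKL P θ L₀ hP hθ0 hθ1
  obtain ⟨CB, hCB, hAB⟩ := hABS κ 24 0 0 hκ le_rfl
  refine ⟨K₀ * CB, by positivity, ?_⟩
  intro N hN1 hN2 hNs B hB
  obtain ⟨C₀, X₁, hC₀, hKL2⟩ := hKL1 N hN1 hN2 hNs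
  obtain ⟨CA, hCA, hAA⟩ := hABS κ 24 3 B hκ hB.le
  obtain ⟨X₂, hX₂⟩ := gsb_ev B A₀ (1 / 4 - θ) (by linarith)
  refine ⟨C₀ * B * CA, max (max X₁ X₂) 3, by positivity, ?_⟩
  intro X lam hX hlam g r t hg hrt hcop hle
  have hX1 : X₁ ≤ X := (le_max_left _ _).trans ((le_max_left _ _).trans hX)
  have hX2 : X₂ ≤ X := (le_max_right _ _).trans ((le_max_left _ _).trans hX)
  have hX3 : 3 ≤ X := (le_max_right _ _).trans hX
  have hlX : 0 < Real.log X := Real.log_pos (by linarith)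
  set w : ℕ := r * t with hw
  have hw0 : w ≠ 0 := hrt.ne_zero
  have hwr : (1 : ℝ) ≤ (w : ℝ) := by exact_mod_cast Nat.one_le_iff_ne_zero.2 hw0
  have hlw0 : 0 ≤ Real.log (w : ℝ) := Real.log_nonneg hwr
  have hr0 : (0 : ℝ) < r := by
    have : r ≠ 0 := fun h0 => hw0 (by rw [hw, h0, zero_mul])
    exact_mod_cast Nat.pos_of_ne_zero this
  have ht0 : (0 : ℝ) < t := by
    have : t ≠ 0 := fun h0 => hw0 (by rw [hw, h0, mul_zero])
    exact_mod_cast Nat.pos_of_ne_zero this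
  have hlw : Real.log (w : ℝ) ≤ A₀ * Real.log (Real.log X) := by
    rw [← Real.log_rpow hlX]
    exact Real.log_le_log (by linarith) hle
  set S : ℝ := B + 2 * Real.log (w : ℝ) with hS
  have hS0 : 0 ≤ S := by positivity
  have hSle : S ≤ (1 / 4 - θ) * Real.log X := by
    refine le_trans ?_ (hX₂ X hX2)
    rw [hS]
    linarith
  set V' : ℝ := 6 ^ w.primeFactors.card / ((r : ℝ) * (t : ℝ) ^ 2) with hV'
  have hV'0 : 0 ≤ V' := by positivity
  have hXθ : 1 ≤ X ^ θ := Real.one_le_rpow (by linarith) hθ0.le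
  have hEf : 0 ≤ Ef w ^ 4 := by positivity
  -- one pair of divisors
  have hone : ∀ n₁ ∈ w.divisors, ∀ n₂ ∈ w.divisors,
      |Ph lam (g * ((∏ p ∈ w.primeFactors, gel (ec (cl r t p) (tt p n₁ n₂)) (tt p n₁ n₂) p) *
        QW P (X ^ θ) N w n₁ n₂))| ≤
      Ef w ^ 4 * V' * (K₀ * Hq N ^ 2 * |mo 0 0 g| +
        C₀ * B * (1 + B + 2 * Real.log (w : ℝ)) ^ 3 / Real.log X) := by
    intro n₁ hn₁ n₂ hn₂
    set G : GR := ∏ p ∈ w.primeFactors, gel (ec (cl r t p) (tt p n₁ n₂)) (tt p n₁ n₂) p with hG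
    have hGB : BD V' (2 * Real.log (w : ℝ)) G := gsb_BD hGLE r t n₁ n₂ hrt
    have hgG : BD (B * V') S (g * G) := BD_mul hg hGB hV'0
    have h1 := hKL2 X lam hX1 hlam (g * G) (B * V') S w n₁ n₂ (by positivity) hS0 hSle hgG hrt
      hcop (Nat.dvd_of_mem_divisors hn₁) (Nat.dvd_of_mem_divisors hn₂)
    rw [← mul_assoc]
    refine h1.trans ?_
    have h2 : |mo 0 0 (g * G)| ≤ |mo 0 0 g| * V' := by
      rw [mo00_mul hMOM, abs_mul]
      exact mul_le_mul_of_nonneg_left (mo00_le hGB) (abs_nonneg _)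
    have h3 : K₀ * Hq N ^ 2 * |mo 0 0 (g * G)| ≤ K₀ * Hq N ^ 2 * (|mo 0 0 g| * V') :=
      mul_le_mul_of_nonneg_left h2 (by positivity)
    have h4 : C₀ * (B * V') * (1 + S) ^ 3 / Real.log X =
        V' * (C₀ * B * (1 + B + 2 * Real.log (w : ℝ)) ^ 3 / Real.log X) := by
      rw [hS]
      ring
    rw [h4]
    calc Ef w ^ 4 * (K₀ * Hq N ^ 2 * |mo 0 0 (g * G)| +
          V' * (C₀ * B * (1 + B + 2 * Real.log (w : ℝ)) ^ 3 / Real.log X))
        ≤ Ef w ^ 4 * (K₀ * Hq N ^ 2 * (|mo 0 0 g| * V') +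
          V' * (C₀ * B * (1 + B + 2 * Real.log (w : ℝ)) ^ 3 / Real.log X)) := by
          apply mul_le_mul_of_nonneg_left _ hEf
          linarith
      _ = _ := by ring
  have hsum : Ph lam (g * GS P (X ^ θ) N r t) = ∑ n₁ ∈ w.divisors, ∑ n₂ ∈ w.divisors,
      Ph lam (g * ((∏ p ∈ w.primeFactors, gel (ec (cl r t p) (tt p n₁ n₂)) (tt p n₁ n₂) p) *
        QW P (X ^ θ) N w n₁ n₂)) := by
    rw [hGID P (X ^ θ) N r t hXθ hN1 hrt hcop, Finset.mul_sum, map_sum]
    apply Finset.sum_congr rfl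
    intro n₁ _
    rw [Finset.mul_sum, map_sum]
  rw [hsum]
  refine (Finset.abs_sum_le_sum_abs _ _).trans ?_
  refine (Finset.sum_le_sum (fun n₁ hn₁ => (Finset.abs_sum_le_sum_abs _ _).trans
    (Finset.sum_le_sum (fun n₂ hn₂ => hone n₁ hn₁ n₂ hn₂)))).trans ?_
  rw [Finset.sum_const, Finset.sum_const, nsmul_eq_mul, nsmul_eq_mul, gsb_card w hrt]
  have hA := hAA w hrt
  have hB0 := hAB w hrt
  rw [pow_zero, mul_one] at hB0
  have h24 : (2 : ℝ) ^ w.primeFactors.card * ((2 : ℝ) ^ w.primeFactors.card *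
      (6 : ℝ) ^ w.primeFactors.card) = 24 ^ w.primeFactors.card := by
    rw [← mul_pow, ← mul_pow]
    norm_num
  have hc24 : ((24 : ℕ) : ℝ) = 24 := by norm_num
  rw [hc24] at hA hB0
  have hrt2 : 0 < (r : ℝ) * (t : ℝ) ^ 2 := by positivity
  calc (2 : ℝ) ^ w.primeFactors.card * ((2 : ℝ) ^ w.primeFactors.card *
      (Ef w ^ 4 * V' * (K₀ * Hq N ^ 2 * |mo 0 0 g| +
        C₀ * B * (1 + B + 2 * Real.log (w : ℝ)) ^ 3 / Real.log X)))
      = 1 / ((r : ℝ) * (t : ℝ) ^ 2) * (((24 : ℝ) ^ w.primeFactors.card * Ef w ^ 4) *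
        (K₀ * Hq N ^ 2 * |mo 0 0 g|) +
        ((24 : ℝ) ^ w.primeFactors.card * Ef w ^ 4 * (1 + B + 2 * Real.log (w : ℝ)) ^ 3) *
        (C₀ * B / Real.log X)) := by
        rw [← h24, hV']
        ring
    _ ≤ 1 / ((r : ℝ) * (t : ℝ) ^ 2) * ((CB * (w : ℝ) ^ κ) * (K₀ * Hq N ^ 2 * |mo 0 0 g|) +
        (CA * (w : ℝ) ^ κ) * (C₀ * B / Real.log X)) := by
        apply mul_le_mul_of_nonneg_left _ (by positivity)
        apply add_le_add
        · exact mul_le_mul_of_nonneg_right hB0 (by positivity)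
        · exact mul_le_mul_of_nonneg_right hA (by positivity)
    _ = _ := by ring

end Pool.Agent.H79.AD
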