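import Pool.Agent.H65.AD.TargetsB

/-!
The module `SMP`: the part with small `r t`.
-/

set_option autoImplicit false

open MeasureTheory Set Filter
open scoped Real

namespace Pool.Agent.H79.AD

open Pool.Agent.H31.CN Pool.Agent.H95.AD Pool.Agent.H50.CN Pool.Agent.H65.AD

theorem smp_shift (lam a : ℝ) (x : GR) : Ph (lam - a) x = Ph lam (E a a * x) := by
  induction x using GR_induction with
  | h0 => simp
  | hadd r s hr hs => rw [map_add, mul_add, map_add, hr, hs]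
  | hE b x y =>
    rw [map_smul, mul_smul_comm, map_smul, E_mul]
    congr 1
    unfold Ph
    rw [lin_E, lin_E]
    simp only [sub_sub]

theorem smp_mo_mul (r s : GR) : mo 0 0 (r * s) = mo 0 0 r * mo 0 0 s := by
  induction r using GR_induction with
  | h0 => simp
  | hadd r r' hr hr' => rw [add_mul, map_add, map_add, hr, hr', add_mul]
  | hE a x y =>
    rw [smul_mul_assoc, map_smul, map_smul, smul_eq_mul, smul_eq_mul, mul_assoc]
    congr 1
    induction s using GR_induction with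
    | h0 => simp
    | hadd r r' hr hr' => rw [mul_add, map_add, map_add, hr, hr', mul_add]
    | hE b x' y' =>
      rw [mul_smul_comm, map_smul, map_smul, E_mul, mo_E, mo_E, mo_E]
      simp

/-- The sum of the weights. -/
theorem smp_weights (κ W : ℝ) (N : ℕ) (hκ : 0 ≤ κ) (hW : 1 ≤ W) :
    ∑ z ∈ (idx N ⌊W⌋₊).filter (fun x => ((x.1 * x.2 : ℕ) : ℝ) ≤ W),
      ((z.1 * z.2 : ℕ) : ℝ) ^ κ / ((z.1 : ℝ) * (z.2 : ℝ) ^ 2) ≤
      W ^ κ * (1 + Real.log W) ^ 2 := by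
  have h0 : ∑ i ∈ Finset.Icc 1 ⌊W⌋₊, ((i : ℕ) : ℝ)⁻¹ ≤ 1 + Real.log W := by
    have h1 := harmonic_floor_le_one_add_log W hW
    rw [harmonic_eq_sum_Icc] at h1
    push_cast at h1
    exact h1
  have h1 : ∀ z ∈ (idx N ⌊W⌋₊).filter (fun x => ((x.1 * x.2 : ℕ) : ℝ) ≤ W),
      ((z.1 * z.2 : ℕ) : ℝ) ^ κ / ((z.1 : ℝ) * (z.2 : ℝ) ^ 2) ≤
        W ^ κ * ((z.1 : ℝ)⁻¹ * (z.2 : ℝ)⁻¹) := by
    intro z hz
    rw [Finset.mem_filter, idx, Finset.mem_filter, Finset.mem_product, Finset.mem_Icc,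
      Finset.mem_Icc] at hz
    obtain ⟨⟨⟨⟨h11, _⟩, ⟨h21, _⟩⟩, _⟩, h3⟩ := hz
    have hr : (1 : ℝ) ≤ z.1 := by exact_mod_cast h11
    have ht : (1 : ℝ) ≤ z.2 := by exact_mod_cast h21
    have h4 : ((z.1 * z.2 : ℕ) : ℝ) ^ κ ≤ W ^ κ := Real.rpow_le_rpow (Nat.cast_nonneg _) h3 hκ
    rw [div_eq_mul_inv, mul_inv]
    apply mul_le_mul h4 _ (by positivity) (by positivity)
    apply mul_le_mul_of_nonneg_left _ (by positivity)
    apply inv_anti₀ (by linarith)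
    nlinarith
  refine (Finset.sum_le_sum h1).trans ?_
  rw [← Finset.mul_sum]
  apply mul_le_mul_of_nonneg_left _ (by positivity)
  have h2 : ∑ z ∈ (idx N ⌊W⌋₊).filter (fun x => ((x.1 * x.2 : ℕ) : ℝ) ≤ W),
      ((z.1 : ℝ)⁻¹ * (z.2 : ℝ)⁻¹) ≤
      ∑ z ∈ (Finset.Icc 1 ⌊W⌋₊) ×ˢ (Finset.Icc 1 ⌊W⌋₊), ((z.1 : ℝ)⁻¹ * (z.2 : ℝ)⁻¹) := by
    apply Finset.sum_le_sum_of_subset_of_nonneg
    · unfold idx
      exact (Finset.filter_subset _ _).trans (Finset.filter_subset _ _)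
    · intro z _ _
      positivity
  refine h2.trans ?_
  have h3 : ∑ z ∈ (Finset.Icc 1 ⌊W⌋₊) ×ˢ (Finset.Icc 1 ⌊W⌋₊), ((z.1 : ℝ)⁻¹ * (z.2 : ℝ)⁻¹) =
      (∑ i ∈ Finset.Icc 1 ⌊W⌋₊, ((i : ℕ) : ℝ)⁻¹) * ∑ i ∈ Finset.Icc 1 ⌊W⌋₊, ((i : ℕ) : ℝ)⁻¹ := by
    rw [Finset.sum_product, Finset.sum_mul_sum]
  rw [h3, sq]
  have h5 : 0 ≤ ∑ i ∈ Finset.Icc 1 ⌊W⌋₊, ((i : ℕ) : ℝ)⁻¹ :=
    Finset.sum_nonneg (fun _ _ => by positivity)
  exact mul_le_mul h0 h0 h5 (by linarith [Real.log_nonneg hW])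

/-- The error of the first step. -/
noncomputable def eX (C X : ℝ) : ℝ :=
  (Real.log X ^ (200 : ℝ)) ^ (1 / 400 : ℝ) * (1 + Real.log (Real.log X ^ (200 : ℝ))) ^ 2 *
    (C / Real.log X)

theorem smp_eX (C : ℝ) : Tendsto (fun X => eX C X) atTop (nhds 0) := by
  have h1 : Tendsto (fun y : ℝ => (1 + 200 * Real.log y) / y ^ (1 / 4 : ℝ)) atTop (nhds 0) := by
    have h2 : Tendsto (fun y : ℝ => Real.log y / y ^ (1 / 4 : ℝ)) atTop (nhds 0) :=
      (isLittleO_log_rpow_atTop (by norm_num : (0 : ℝ) < 1 / 4)).tendsto_div_nhds_zero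
    have h3 : Tendsto (fun y : ℝ => 1 / y ^ (1 / 4 : ℝ)) atTop (nhds 0) :=
      tendsto_const_nhds.div_atTop (tendsto_rpow_atTop (by norm_num))
    have h4 := h3.add (h2.const_mul 200)
    rw [mul_zero, add_zero] at h4
    refine h4.congr (fun y => ?_)
    ring
  have h2 : Tendsto (fun y : ℝ => C * ((1 + 200 * Real.log y) / y ^ (1 / 4 : ℝ)) ^ 2) atTop
      (nhds 0) := by
    have h3 := (h1.pow 2).const_mul C
    simpa using h3
  refine (h2.comp Real.tendsto_log_atTop).congr' ?_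
  filter_upwards [Real.tendsto_log_atTop.eventually_gt_atTop 0] with X hX
  simp only [Function.comp]
  unfold eX
  set y := Real.log X with hy
  rw [← Real.rpow_mul hX.le, Real.log_rpow hX, div_pow, ← Real.rpow_natCast (y ^ (1 / 4 : ℝ)) 2,
    ← Real.rpow_mul hX.le]
  have h3 : (200 : ℝ) * (1 / 400) = 1 / 2 := by norm_num
  have h4 : (1 / 4 : ℝ) * ((2 : ℕ) : ℝ) = 1 / 2 := by norm_num
  rw [h3, h4]
  have h5 : y ^ (1 / 2 : ℝ) * y ^ (1 / 2 : ℝ) = y := by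
    rw [← Real.rpow_add hX]
    norm_num
  have h6 : 0 < y ^ (1 / 2 : ℝ) := Real.rpow_pos_of_pos hX _
  have h7 : C / y = C / (y ^ (1 / 2 : ℝ) * y ^ (1 / 2 : ℝ)) := by rw [h5]
  rw [h7]
  field_simp

/-- The pairs with small `r t`, except `(1, 1)`, have `r t > R`. -/
theorem smp_large (R : ℕ) (z : ℕ × ℕ) (h1 : 1 ≤ z.1) (h2 : 1 ≤ z.2)
    (hc : Nat.Coprime (z.1 * z.2) (primorial R)) (hne : z ≠ (1, 1)) :
    (R : ℝ) < ((z.1 * z.2 : ℕ) : ℝ) := by
  have h3 : z.1 * z.2 ≠ 1 := by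
    intro h
    apply hne
    have h4 := Nat.eq_one_of_mul_eq_one_right h
    have h5 := Nat.eq_one_of_mul_eq_one_left h
    exact Prod.ext h4 h5
  have hp := Nat.minFac_prime h3
  have hd := Nat.minFac_dvd (z.1 * z.2)
  have h6 : ¬ (z.1 * z.2).minFac ≤ R := by
    intro hle
    have h7 := hp.dvd_primorial_iff.2 hle
    exact hp.one_lt.ne' (Nat.eq_one_of_dvd_coprimes hc hd h7)
  have h8 : (z.1 * z.2).minFac ≤ z.1 * z.2 := Nat.le_of_dvd (Nat.mul_pos h1 h2) hd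
  have h9 : R < z.1 * z.2 := by omega
  exact_mod_cast h9

theorem smp_xD (hCHV : T_CHV) (r D : ℕ) (hD : D % 4 = 3) : |xD r D| ≤ 1 := by
  unfold xD
  rw [Finset.abs_prod]
  apply Finset.prod_le_one (fun _ _ => abs_nonneg _)
  intro p hp
  rcases (hCHV D p hD (Nat.prime_of_mem_primeFactors hp)).1 with h | h | h <;> rw [h] <;> simp

theorem smp_rho (N : ℕ) : 0 ≤ rho N := by
  unfold rho
  apply Finset.prod_nonneg
  intro p hp
  have h1 : (1 : ℝ) ≤ p := by exact_mod_cast (Nat.prime_of_mem_primeFactors hp).one_lt.le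
  have h2 : 1 / (p : ℝ) ≤ 1 := by
    rw [div_le_one (by linarith)]
    exact h1
  exact pow_nonneg (by linarith) 3

/-- The element of the first step. -/
theorem smp_BD (C r L a : ℝ) (s : GR) (hs : BD C C s) (hC : 0 ≤ C) (hr : 0 ≤ r) (ha : 0 ≤ a)
    (haL : a ≤ L) (hmo : mo 0 0 s = r) :
    BD (C + r + L) (C + r + L) (E a a * s - r • (1 : GR)) ∧
      mo 0 0 (E a a * s - r • (1 : GR)) = 0 := by
  have habs : |a| ≤ a := (abs_of_nonneg ha).le
  have h1 : BD (1 * C) (a + C) (E a a * s) := BD_mul (BD_E habs habs) hs hC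
  have h2 : BD (C + r + L) (C + r + L) (E a a * s + (-r) • (1 : GR)) := by
    have h3 : BD (|(-r)| * 1) 0 ((-r) • (1 : GR)) := BD_smul BD_one (-r)
    have h4 := BD_add (BD_mono h1 le_rfl (by linarith : a + C ≤ C + r + L))
      (BD_mono h3 le_rfl (by linarith : (0 : ℝ) ≤ C + r + L))
    refine BD_mono h4 ?_ le_rfl
    rw [abs_neg, abs_of_nonneg hr]
    linarith
  have h5 : E a a * s - r • (1 : GR) = E a a * s + (-r) • (1 : GR) := by
    rw [neg_smul, sub_eq_add_neg]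
  refine ⟨by rw [h5]; exact h2, ?_⟩
  rw [map_sub, smp_mo_mul, mo_E, map_smul, mo_one, hmo]
  simp

theorem pf_SMP (hGSB : T_GSB) (hSGN : T_SGN) (hHLB : T_HLB) (hHQB : T_HQB) (hCHV : T_CHV) :
    T_SMP := by
  classical
  intro P θ hP hθ0 hθ1
  obtain ⟨K₀, hK₀, hG⟩ := hGSB P θ (1 / 400) 0 200 hP hθ0 hθ1 (by norm_num) (by norm_num)
  obtain ⟨CL, hCL, hL⟩ := hHLB (1 / 400) (by norm_num) (by norm_num)
  obtain ⟨CH, hCH, hH⟩ := hHQB
  refine ⟨4 * CL * (K₀ * CH) ^ 2, by positivity, ?_⟩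
  intro R hR η ε hη0 hη1 hε
  set N : ℕ := primorial R with hN
  have hN1 : 1 ≤ N := primorial_pos R
  have hN2 : 2 ∣ N := Nat.prime_two.dvd_primorial_iff.2 hR
  have hNs : Squarefree N := squarefree_primorial R
  obtain ⟨Cs, hCs, hS⟩ := hSGN N hN1 hNs
  obtain ⟨C₁, X₁, hC₁, hG1⟩ := hG N hN1 hN2 hNs 1 one_pos
  have hrho : 0 ≤ rho N := smp_rho N
  have hRr : (2 : ℝ) ≤ R := by exact_mod_cast hR
  have hlogR : 0 ≤ Real.log R := Real.log_nonneg (by linarith)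
  set L : ℝ := 1 / 2 * Real.log (1 / η) with hLdef
  have hL0 : 0 ≤ L := by
    have : 0 ≤ Real.log (1 / η) := Real.log_nonneg (by rw [le_div_iff₀ hη0]; linarith)
    positivity
  obtain ⟨C₂, X₂, hC₂, hG2⟩ := hG N hN1 hN2 hNs (Cs + rho N + L) (by positivity)
  set K1 : ℝ := K₀ * CH * (1 + Real.log R) + rho N * C₁ with hK1
  have hK10 : 0 ≤ K1 := by positivity
  have hev : ∀ᶠ X : ℝ in atTop, 2 * (eX C₂ X) ^ 2 +
      4 * CL * (rho N * (C₁ / Real.log X)) ^ 2 * (R : ℝ) ^ (-(1 / 2) : ℝ) +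
      2 * CL * K1 ^ 2 * (Real.log X ^ (201 : ℕ) / X) ≤ ε := by
    have h1 := ((smp_eX C₂).pow 2).const_mul 2
    have h2 : Tendsto (fun X : ℝ => C₁ / Real.log X) atTop (nhds 0) :=
      tendsto_const_nhds.div_atTop Real.tendsto_log_atTop
    have h3 := (((h2.const_mul (rho N)).pow 2).const_mul (4 * CL)).mul_const
      ((R : ℝ) ^ (-(1 / 2) : ℝ))
    have h4 : Tendsto (fun X : ℝ => Real.log X ^ (201 : ℕ) / X) atTop (nhds 0) :=
      (Real.isLittleO_pow_log_id_atTop (n := 201)).tendsto_div_nhds_zero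
    have h5 := h4.const_mul (2 * CL * K1 ^ 2)
    have h6 := (h1.add h3).add h5
    simp only [ne_eq, OfNat.ofNat_ne_zero, not_false_eq_true, zero_pow, mul_zero, zero_mul,
      add_zero] at h6
    exact (h6.eventually (gt_mem_nhds hε)).mono (fun X hX => hX.le)
  obtain ⟨X₃, hX₃⟩ := eventually_atTop.1 hev
  refine ⟨max (max X₁ X₂) (max X₃ (Real.exp 1)), ?_⟩
  intro X hX
  have hX1 : X₁ ≤ X := (le_max_left _ _).trans ((le_max_left _ _).trans hX)
  have hX2 : X₂ ≤ X := (le_max_right _ _).trans ((le_max_left _ _).trans hX)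
  have hX3 : X₃ ≤ X := (le_max_left _ _).trans ((le_max_right _ _).trans hX)
  have hXe : Real.exp 1 ≤ X := (le_max_right _ _).trans ((le_max_right _ _).trans hX)
  have hXpos : 0 < X := (Real.exp_pos 1).trans_le hXe
  have hlX : 1 ≤ Real.log X := by
    rw [Real.le_log_iff_exp_le hXpos]
    exact hXe
  have hX1' : 1 ≤ X := by
    have := Real.add_one_le_exp 1
    linarith
  set W : ℝ := Real.log X ^ (200 : ℝ) with hW
  have hW1 : 1 ≤ W := Real.one_le_rpow hlX (by norm_num)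
  set lam : ℝ := Real.log (Real.sqrt X) with hlam
  have hlam2 : lam = 1 / 2 * Real.log X := by
    rw [hlam, Real.log_sqrt hXpos.le]
    ring
  have hlam0 : |lam - 1 / 2 * Real.log X| ≤ 0 := by
    rw [hlam2, sub_self, abs_zero]
  set G : ℕ × ℕ → GR := fun z => GS P (X ^ θ) N z.1 z.2 with hGdef
  set S : Finset (ℕ × ℕ) := (idx N ⌊W⌋₊).filter (fun x => ((x.1 * x.2 : ℕ) : ℝ) ≤ W) with hSdef
  set h : ℕ × ℕ → ℝ := fun z => if ((z.1 * z.2 : ℕ) : ℝ) ≤ W then rho N * Ph lam (G z) else 0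
    with hh
  set cz : ℕ → ℕ × ℕ → ℝ := fun D z => xD z.1 D * (if z.2 ∣ D then 1 else 0) with hcz
  set T : ℕ → ℝ := fun D => ∑ z ∈ idT N ⌊W⌋₊ R, cz D z * h z with hT
  have hmem : ∀ z, z ∈ S ↔ ((1 ≤ z.1 ∧ z.1 ≤ ⌊W⌋₊) ∧ (1 ≤ z.2 ∧ z.2 ≤ ⌊W⌋₊)) ∧
      (Squarefree (z.1 * z.2) ∧ Nat.Coprime (z.1 * z.2) N) ∧ ((z.1 * z.2 : ℕ) : ℝ) ≤ W := by
    intro z
    rw [hSdef, Finset.mem_filter, idx, Finset.mem_filter, Finset.mem_product, Finset.mem_Icc,
      Finset.mem_Icc, and_assoc]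
  have h11 : ((1 : ℕ), (1 : ℕ)) ∈ S := by
    rw [hmem]
    have : 1 ≤ ⌊W⌋₊ := Nat.floor_pos.2 hW1
    simp only [mul_one, Nat.cast_one]
    exact ⟨⟨⟨le_rfl, this⟩, ⟨le_rfl, this⟩⟩, ⟨squarefree_one, Nat.coprime_one_left N⟩, hW1⟩
  -- the second sum
  have hsec : ∀ D, ∑ z ∈ S, cz D z * (rho N * Ph lam (G z)) =
      rho N * Ph lam (GS P (X ^ θ) N 1 1) + T D := by
    intro D
    rw [← Finset.add_sum_erase S _ h11]
    congr 1
    · simp only [hcz, hGdef, xD, Nat.primeFactors_one, Finset.prod_empty, one_mul]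
      rw [if_pos (one_dvd D), one_mul]
    · have hsub : S.erase (1, 1) ⊆ idT N ⌊W⌋₊ R := by
        intro z hz
        rw [Finset.mem_erase, hmem] at hz
        obtain ⟨hne, ⟨⟨h1, h1'⟩, ⟨h2, h2'⟩⟩, ⟨hsq, hco⟩, _⟩ := hz
        rw [idT, Finset.mem_filter, idx, Finset.mem_filter, Finset.mem_product, Finset.mem_Icc,
          Finset.mem_Icc]
        exact ⟨⟨⟨⟨h1, h1'⟩, ⟨h2, h2'⟩⟩, hsq, hco⟩, smp_large R z h1 h2 hco hne⟩
      have h3 : ∑ z ∈ S.erase (1, 1), cz D z * (rho N * Ph lam (G z)) =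
          ∑ z ∈ S.erase (1, 1), cz D z * h z := by
        apply Finset.sum_congr rfl
        intro z hz
        rw [Finset.mem_erase, hmem] at hz
        simp only [hh]
        rw [if_pos hz.2.2.2]
      rw [h3]
      simp only [hT]
      apply Finset.sum_subset hsub
      intro z hz hz'
      rw [idT, Finset.mem_filter, idx, Finset.mem_filter, Finset.mem_product, Finset.mem_Icc,
        Finset.mem_Icc] at hz
      obtain ⟨⟨⟨h1, h2⟩, h4⟩, h5⟩ := hz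
      by_cases hle : ((z.1 * z.2 : ℕ) : ℝ) ≤ W
      · exfalso
        apply hz'
        rw [Finset.mem_erase, hmem]
        refine ⟨?_, ⟨h1, h2⟩, h4, hle⟩
        rintro rfl
        norm_num at h5
        linarith
      · simp only [hh]
        rw [if_neg hle, mul_zero]
  -- the coefficients are bounded
  have hczb : ∀ D, D % 4 = 3 → ∀ z, |cz D z| ≤ 1 := by
    intro D hD z
    simp only [hcz]
    rw [abs_mul]
    have h1 := smp_xD hCHV z.1 D hD
    split_ifs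
    · simpa using h1
    · simp
  -- the first sum
  have hfirst : ∀ D ∈ faE η X, |Sm P (X ^ θ) N W D -
      rho N * Ph lam (GS P (X ^ θ) N 1 1) - T D| ≤ eX C₂ X := by
    intro D hD
    rw [faE, Finset.mem_filter, fam, Finset.mem_filter, Finset.mem_Icc] at hD
    obtain ⟨⟨⟨hD1, hD2⟩, ⟨hD3, hD4, hDs⟩⟩, hD5⟩ := hD
    have hDr : (0 : ℝ) < D := by exact_mod_cast hD1
    have hDX : (D : ℝ) ≤ X := (Nat.le_floor_iff hXpos.le).1 hD2
    set a : ℝ := lam - Real.log (Real.sqrt D) with ha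
    have ha0 : 0 ≤ a := by
      rw [ha, hlam]
      have := Real.log_le_log (Real.sqrt_pos.2 hDr) (Real.sqrt_le_sqrt hDX)
      linarith
    have haL : a ≤ L := by
      rw [ha, hlam2, Real.log_sqrt hDr.le, hLdef, Real.log_div one_ne_zero hη0.ne', Real.log_one]
      have h1 : Real.log (η * X) ≤ Real.log D := Real.log_le_log (by positivity) hD5
      rw [Real.log_mul hη0.ne' hXpos.ne'] at h1
      linarith
    obtain ⟨hmo, hsBD, _⟩ := hS (fun p => chi p D) (by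
      intro p hp
      exact (hCHV D p hD4 (Nat.prime_of_mem_primeFactors hp)).1)
    set s : GR := sN N (fun p => chi p D) with hs
    obtain ⟨hgBD, hgmo⟩ := smp_BD Cs (rho N) L a s hsBD hCs.le hrho ha0 haL hmo
    set g : GR := E a a * s - rho N • (1 : GR) with hg
    have hterm : ∀ z, Ph (Real.log (Real.sqrt D)) (s * G z) =
        Ph lam (g * G z) + rho N * Ph lam (G z) := by
      intro z
      have h1 : Real.log (Real.sqrt D) = lam - a := by rw [ha]; ring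
      rw [h1, smp_shift, hg, sub_mul, map_sub, smul_mul_assoc, one_mul, map_smul, smul_eq_mul,
        mul_assoc]
      ring
    have hSm : Sm P (X ^ θ) N W D - rho N * Ph lam (GS P (X ^ θ) N 1 1) - T D =
        ∑ z ∈ S, cz D z * Ph lam (g * G z) := by
      have h1 : Sm P (X ^ θ) N W D = ∑ z ∈ S, cz D z * Ph (Real.log (Real.sqrt D)) (s * G z) := rfl
      rw [h1]
      simp only [hterm, mul_add]
      rw [Finset.sum_add_distrib, hsec D]
      ring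
    rw [hSm]
    refine (Finset.abs_sum_le_sum_abs _ _).trans ?_
    have h2 : ∀ z ∈ S, |cz D z * Ph lam (g * G z)| ≤
        ((z.1 * z.2 : ℕ) : ℝ) ^ (1 / 400 : ℝ) / ((z.1 : ℝ) * (z.2 : ℝ) ^ 2) *
          (C₂ / Real.log X) := by
      intro z hz
      rw [hmem] at hz
      obtain ⟨_, ⟨hsq, hco⟩, hle⟩ := hz
      have h3 := hG2 X lam hX2 hlam0 g z.1 z.2 hgBD hsq hco hle
      rw [hgmo, abs_zero, mul_zero, zero_add] at h3
      rw [abs_mul]
      calc |cz D z| * |Ph lam (g * G z)| ≤ 1 * |Ph lam (g * G z)| :=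
            mul_le_mul_of_nonneg_right (hczb D hD4 z) (abs_nonneg _)
        _ = |Ph lam (g * G z)| := one_mul _
        _ ≤ _ := h3
    refine (Finset.sum_le_sum h2).trans ?_
    rw [← Finset.sum_mul]
    unfold eX
    exact mul_le_mul_of_nonneg_right (smp_weights (1 / 400) W N (by norm_num) hW1) (by positivity)
  -- the large sieve
  have hhb : ∀ z ∈ idT N ⌊W⌋₊ R, |h z| ≤ (K₀ * CH * (1 + Real.log R) +
      rho N * (C₁ / Real.log X)) *
        (((z.1 * z.2 : ℕ) : ℝ) ^ (1 / 400 : ℝ) / ((z.1 : ℝ) * (z.2 : ℝ) ^ 2)) := by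
    intro z hz
    rw [idT, Finset.mem_filter, idx, Finset.mem_filter] at hz
    obtain ⟨⟨_, ⟨hsq, hco⟩⟩, _⟩ := hz
    simp only [hh]
    split_ifs with hle
    · have h3 := hG1 X lam hX1 hlam0 1 z.1 z.2 (BD_mono BD_one le_rfl zero_le_one) hsq hco hle
      simp only [mo_one, pow_zero, one_mul, abs_one, mul_one] at h3
      rw [abs_mul, abs_of_nonneg hrho]
      have h4 := hH R hR
      rw [← hN] at h4
      calc rho N * |Ph lam (G z)| ≤ rho N * (((z.1 * z.2 : ℕ) : ℝ) ^ (1 / 400 : ℝ) /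
            ((z.1 : ℝ) * (z.2 : ℝ) ^ 2) * (K₀ * Hq N ^ 2 + C₁ / Real.log X)) :=
            mul_le_mul_of_nonneg_left h3 hrho
        _ = (K₀ * (rho N * Hq N ^ 2) + rho N * (C₁ / Real.log X)) *
            (((z.1 * z.2 : ℕ) : ℝ) ^ (1 / 400 : ℝ) / ((z.1 : ℝ) * (z.2 : ℝ) ^ 2)) := by ring
        _ ≤ _ := by
            apply mul_le_mul_of_nonneg_right _ (by positivity)
            have h5 := mul_le_mul_of_nonneg_left h4 hK₀.le
            linarith
    · rw [abs_zero]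
      positivity
  have hsieve := hL X R (K₀ * CH * (1 + Real.log R) + rho N * (C₁ / Real.log X)) N ⌊W⌋₊ h hX1'
    (by linarith) (by positivity) hN1 hN2 hhb
  have hsub2 : faE η X ⊆ Finset.Icc 1 ⌊X⌋₊ := by
    unfold faE fam
    exact (Finset.filter_subset _ _).trans (Finset.filter_subset _ _)
  have hcard : ((faE η X).card : ℝ) ≤ X := by
    have h1 := Finset.card_le_card hsub2
    rw [Nat.card_Icc, Nat.add_sub_cancel] at h1
    exact (Nat.cast_le.2 h1).trans (Nat.floor_le hXpos.le)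
  have heX0 : 0 ≤ eX C₂ X := by
    have : 0 < Real.log X := by linarith
    unfold eX
    positivity
  have hpt : ∀ D ∈ faE η X, (Sm P (X ^ θ) N W D - rho N * Ph lam (GS P (X ^ θ) N 1 1)) ^ 2 ≤
      2 * (eX C₂ X) ^ 2 + 2 * T D ^ 2 := by
    intro D hD
    have h1 := hfirst D hD
    set u := Sm P (X ^ θ) N W D - rho N * Ph lam (GS P (X ^ θ) N 1 1) with hu
    have h2 : (u - T D) ^ 2 ≤ (eX C₂ X) ^ 2 := by
      rw [← sq_abs]
      exact pow_le_pow_left₀ (abs_nonneg _) h1 2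
    nlinarith [sq_nonneg (u - 2 * T D)]
  refine (Finset.sum_le_sum hpt).trans ?_
  rw [Finset.sum_add_distrib, Finset.sum_const, nsmul_eq_mul, ← Finset.mul_sum]
  have hT2 : ∑ D ∈ faE η X, T D ^ 2 ≤ CL * (K₀ * CH * (1 + Real.log R) +
      rho N * (C₁ / Real.log X)) ^ 2 * (X * (R : ℝ) ^ (-(1 / 2) : ℝ) +
        ((⌊W⌋₊ : ℕ) : ℝ) ^ (1 + 2 * (1 / 400) : ℝ)) :=
    (Finset.sum_le_sum_of_subset_of_nonneg hsub2 (fun _ _ _ => by positivity)).trans hsieve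
  have hY : ((⌊W⌋₊ : ℕ) : ℝ) ^ (1 + 2 * (1 / 400) : ℝ) ≤ Real.log X ^ (201 : ℕ) := by
    have h1 : ((⌊W⌋₊ : ℕ) : ℝ) ≤ W := Nat.floor_le (by linarith)
    refine (Real.rpow_le_rpow (Nat.cast_nonneg _) h1 (by norm_num)).trans (le_of_eq ?_)
    rw [hW, ← Real.rpow_mul (by linarith), ← Real.rpow_natCast]
    congr 1
    norm_num
  have hR0 : 0 ≤ (R : ℝ) ^ (-(1 / 2) : ℝ) := by positivity
  have hclx : C₁ / Real.log X ≤ C₁ := div_le_self hC₁.le hlX
  have hcl0 : 0 ≤ C₁ / Real.log X := by positivity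
  have hfin := hX₃ X hX3
  set U : ℝ := K₀ * CH * (1 + Real.log R) with hU
  set V : ℝ := rho N * (C₁ / Real.log X) with hV
  have hU0 : 0 ≤ U := by positivity
  have hV0 : 0 ≤ V := by positivity
  have hUV : (U + V) ^ 2 ≤ 2 * U ^ 2 + 2 * V ^ 2 := by nlinarith [sq_nonneg (U - V)]
  have hUK : (U + V) ^ 2 ≤ K1 ^ 2 := by
    apply pow_le_pow_left₀ (by positivity)
    rw [hK1, hV]
    have := mul_le_mul_of_nonneg_left hclx hrho
    linarith
  have hlog0 : 0 ≤ Real.log X ^ (201 : ℕ) := by positivity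
  have hA : CL * (U + V) ^ 2 * (X * (R : ℝ) ^ (-(1 / 2) : ℝ) +
      ((⌊W⌋₊ : ℕ) : ℝ) ^ (1 + 2 * (1 / 400) : ℝ)) ≤
      CL * (2 * U ^ 2 + 2 * V ^ 2) * (X * (R : ℝ) ^ (-(1 / 2) : ℝ)) +
      CL * K1 ^ 2 * Real.log X ^ (201 : ℕ) := by
    have h1 : CL * (U + V) ^ 2 * (X * (R : ℝ) ^ (-(1 / 2) : ℝ)) ≤
        CL * (2 * U ^ 2 + 2 * V ^ 2) * (X * (R : ℝ) ^ (-(1 / 2) : ℝ)) := by
      apply mul_le_mul_of_nonneg_right _ (by positivity)
      exact mul_le_mul_of_nonneg_left hUV hCL.le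
    have h2 : CL * (U + V) ^ 2 * ((⌊W⌋₊ : ℕ) : ℝ) ^ (1 + 2 * (1 / 400) : ℝ) ≤
        CL * K1 ^ 2 * Real.log X ^ (201 : ℕ) :=
      mul_le_mul (mul_le_mul_of_nonneg_left hUK hCL.le) hY (by positivity) (by positivity)
    rw [mul_add]
    linarith
  have hB : ((faE η X).card : ℝ) * (2 * (eX C₂ X) ^ 2) ≤ X * (2 * (eX C₂ X) ^ 2) :=
    mul_le_mul_of_nonneg_right hcard (by positivity)
  have hfin2 := mul_le_mul_of_nonneg_right hfin hXpos.le
  have h9 : Real.log X ^ (201 : ℕ) / X * X = Real.log X ^ (201 : ℕ) := div_mul_cancel₀ _ hXpos.ne'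
  calc ((faE η X).card : ℝ) * (2 * (eX C₂ X) ^ 2) + 2 * ∑ D ∈ faE η X, T D ^ 2
      ≤ X * (2 * (eX C₂ X) ^ 2) + 2 * (CL * (2 * U ^ 2 + 2 * V ^ 2) *
        (X * (R : ℝ) ^ (-(1 / 2) : ℝ)) + CL * K1 ^ 2 * Real.log X ^ (201 : ℕ)) := by
        have := hT2.trans hA
        linarith
    _ = 4 * CL * U ^ 2 * (R : ℝ) ^ (-(1 / 2) : ℝ) * X +
        (2 * (eX C₂ X) ^ 2 + 4 * CL * V ^ 2 * (R : ℝ) ^ (-(1 / 2) : ℝ) +
        2 * CL * K1 ^ 2 * (Real.log X ^ (201 : ℕ) / X)) * X := by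
        rw [add_mul, mul_assoc (2 * CL * K1 ^ 2) _ X, h9]
        ring
    _ ≤ 4 * CL * U ^ 2 * (R : ℝ) ^ (-(1 / 2) : ℝ) * X + ε * X := by linarith
    _ = _ := by
        rw [hU]
        ring

end Pool.Agent.H79.AD
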