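import Pool.Agent.H95.AD.TargetsU

/-!
The module `BLK`: the mean square of a block.
-/

set_option autoImplicit false

open MeasureTheory Set Filter
open scoped Real

namespace Pool.Agent.H79.AD

open Pool.Agent.H95.AD

/-- The bound of the series for one `A`. -/
noncomputable def bnA (ε C1 C3 K e m sY A d : ℝ) : ℝ :=
  C1 ^ 2 * K ^ 2 / (e ^ 2 * A * sY) * Real.exp (-(2 * (e ^ 2 * A / (m * sY)))) *
    d ^ (ε - 1) * Real.exp (-(d * sY / A / 2)) * (C3 * (d * sY / A / 2) ^ (-(ε - 1 + 1 + ε)))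

theorem blk_term (ε C1 K : ℝ) (hK : 0 ≤ K) (hC1 : 0 < C1)
    (htau : ∀ n : ℕ, 1 ≤ n → tau n ≤ C1 * (n : ℝ) ^ (ε / 2)) (a e m Y : ℕ)
    (he : 1 ≤ e) (hm : 1 ≤ m) (hY : 1 ≤ Y) (β : ℕ → ℕ → ℝ) (hCB : CB K a e m Y β) (A d : ℕ)
    (hA : 1 ≤ A) (hd : 1 ≤ d) (n' : ℕ) :
    β A (d * (n' + 1)) ^ 2 * Real.exp (Real.sqrt Y / A * ((d * (n' + 1) : ℕ) : ℝ)) ≤
      (C1 ^ 2 * K ^ 2 / ((e : ℝ) ^ 2 * A * Real.sqrt Y) *
        Real.exp (-(2 * ((e : ℝ) ^ 2 * A / (m * Real.sqrt Y)))) *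
        (d : ℝ) ^ (ε - 1) * Real.exp (-((d : ℝ) * Real.sqrt Y / A / 2))) *
      (((n' : ℝ) + 1) ^ (ε - 1) *
        Real.exp (-((d : ℝ) * Real.sqrt Y / A / 2 * ((n' : ℝ) + 1)))) := by
  have hYr : (0 : ℝ) < Y := by exact_mod_cast hY
  have hAr : (0 : ℝ) < A := by exact_mod_cast hA
  have hdr : (0 : ℝ) < d := by exact_mod_cast hd
  have her : (0 : ℝ) < e := by exact_mod_cast he
  have hmr : (0 : ℝ) < m := by exact_mod_cast hm
  set sY : ℝ := Real.sqrt Y with hsY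
  have hsY0 : 0 < sY := Real.sqrt_pos.2 hYr
  have hn'0 : (0 : ℝ) < (n' : ℝ) + 1 := by positivity
  set n : ℕ := d * (n' + 1) with hn
  have hn1 : 1 ≤ n := Nat.mul_pos hd (Nat.succ_pos _)
  have hnr : (n : ℝ) = d * ((n' : ℝ) + 1) := by rw [hn]; push_cast; ring
  have hnr0 : (0 : ℝ) < n := by exact_mod_cast hn1
  have h0 := hCB.2 A n hA hn1
  set E1 : ℝ := Real.exp (-((n : ℝ) * sY / A)) with hE1
  set E2 : ℝ := Real.exp (-((e : ℝ) ^ 2 * A / (m * sY))) with hE2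
  have hE10 : 0 < E1 := Real.exp_pos _
  have hE20 : 0 < E2 := Real.exp_pos _
  have h1 : β A n ^ 2 ≤ (K * (C1 * (n : ℝ) ^ (ε / 2) / ((e : ℝ) * A)) *
      Real.sqrt ((A : ℝ) / (n * sY)) * E1 * E2) ^ 2 := by
    rw [← sq_abs]
    apply pow_le_pow_left₀ (abs_nonneg _)
    refine h0.trans ?_
    have h2 : tau n / ((e : ℝ) * A) ≤ C1 * (n : ℝ) ^ (ε / 2) / ((e : ℝ) * A) :=
      div_le_div_of_nonneg_right (htau n hn1) (by positivity)
    gcongr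
  have h2 : (K * (C1 * (n : ℝ) ^ (ε / 2) / ((e : ℝ) * A)) *
      Real.sqrt ((A : ℝ) / (n * sY)) * E1 * E2) ^ 2 =
      C1 ^ 2 * K ^ 2 / ((e : ℝ) ^ 2 * A * sY) * E2 ^ 2 * ((n : ℝ) ^ (ε - 1)) * E1 ^ 2 := by
    rw [mul_pow, mul_pow, mul_pow, Real.sq_sqrt (by positivity), mul_pow, div_pow, mul_pow,
      ← Real.rpow_natCast ((n : ℝ) ^ (ε / 2)) 2, ← Real.rpow_mul hnr0.le]
    have h3 : ε / 2 * ((2 : ℕ) : ℝ) = ε := by push_cast; ring
    rw [h3, Real.rpow_sub hnr0, Real.rpow_one]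
    field_simp
  have h3 : (n : ℝ) ^ (ε - 1) = (d : ℝ) ^ (ε - 1) * ((n' : ℝ) + 1) ^ (ε - 1) := by
    rw [hnr, Real.mul_rpow hdr.le hn'0.le]
  have h4 : E2 ^ 2 = Real.exp (-(2 * ((e : ℝ) ^ 2 * A / (m * sY)))) := by
    rw [hE2, ← Real.exp_nat_mul]
    congr 1
    push_cast
    ring
  have h5 : E1 ^ 2 * Real.exp (sY / A * (n : ℝ)) ≤ Real.exp (-((d : ℝ) * sY / A / 2)) *
      Real.exp (-((d : ℝ) * sY / A / 2 * ((n' : ℝ) + 1))) := by
    rw [hE1, ← Real.exp_nat_mul, ← Real.exp_add, ← Real.exp_add]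
    apply Real.exp_le_exp.2
    have h6 : ((2 : ℕ) : ℝ) * -((n : ℝ) * sY / A) + sY / A * n =
        -((d : ℝ) * sY / A) * ((n' : ℝ) + 1) := by
      rw [hnr]
      push_cast
      ring
    rw [h6]
    have h7 : 0 < (d : ℝ) * sY / A := by positivity
    have h8 : (0 : ℝ) ≤ n' := Nat.cast_nonneg _
    nlinarith
  calc β A n ^ 2 * Real.exp (sY / A * (n : ℝ))
      ≤ (C1 ^ 2 * K ^ 2 / ((e : ℝ) ^ 2 * A * sY) * E2 ^ 2 * ((n : ℝ) ^ (ε - 1)) * E1 ^ 2) *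
        Real.exp (sY / A * (n : ℝ)) := by
        rw [← h2]
        exact mul_le_mul_of_nonneg_right h1 (Real.exp_pos _).le
    _ = (C1 ^ 2 * K ^ 2 / ((e : ℝ) ^ 2 * A * sY) * E2 ^ 2 * ((n : ℝ) ^ (ε - 1))) *
        (E1 ^ 2 * Real.exp (sY / A * (n : ℝ))) := by ring
    _ ≤ (C1 ^ 2 * K ^ 2 / ((e : ℝ) ^ 2 * A * sY) * E2 ^ 2 * ((n : ℝ) ^ (ε - 1))) *
        (Real.exp (-((d : ℝ) * sY / A / 2)) *
          Real.exp (-((d : ℝ) * sY / A / 2 * ((n' : ℝ) + 1)))) :=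
        mul_le_mul_of_nonneg_left h5 (by positivity)
    _ = _ := by
        rw [h3, h4]
        ring

theorem blk_series (ε C1 C3 K : ℝ) (hK : 0 ≤ K) (hC1 : 0 < C1)
    (htau : ∀ n : ℕ, 1 ≤ n → tau n ≤ C1 * (n : ℝ) ^ (ε / 2))
    (hsex : ∀ x : ℝ, 0 < x →
      Summable (fun n : ℕ => ((n : ℝ) + 1) ^ (ε - 1) * Real.exp (-(x * ((n : ℝ) + 1)))) ∧
      ∑' n : ℕ, ((n : ℝ) + 1) ^ (ε - 1) * Real.exp (-(x * ((n : ℝ) + 1))) ≤
        C3 * x ^ (-(ε - 1 + 1 + ε))) (a e m Y : ℕ)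
    (he : 1 ≤ e) (hm : 1 ≤ m) (hY : 1 ≤ Y) (β : ℕ → ℕ → ℝ) (hCB : CB K a e m Y β) (A d : ℕ)
    (hA : 1 ≤ A) (hd : 1 ≤ d) :
    Summable (fun n : ℕ => (if d ∣ n then β A n else 0) ^ 2 *
      Real.exp (Real.sqrt Y / A * (n : ℝ))) ∧
    ∑' n : ℕ, (if d ∣ n then β A n else 0) ^ 2 * Real.exp (Real.sqrt Y / A * (n : ℝ)) ≤
      bnA ε C1 C3 K e m (Real.sqrt Y) A d := by
  have hYr : (0 : ℝ) < Y := by exact_mod_cast hY
  have hAr : (0 : ℝ) < A := by exact_mod_cast hA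
  have hdr : (0 : ℝ) < d := by exact_mod_cast hd
  have hsY0 : 0 < Real.sqrt Y := Real.sqrt_pos.2 hYr
  set f : ℕ → ℝ := fun n => (if d ∣ n then β A n else 0) ^ 2 *
      Real.exp (Real.sqrt Y / A * (n : ℝ)) with hf
  set i : ℕ → ℕ := fun n' => d * (n' + 1) with hi
  have hinj : Function.Injective i := by
    intro u v huv
    have h1 := Nat.eq_of_mul_eq_mul_left hd huv
    omega
  have hsupp : ∀ n, n ∉ Set.range i → f n = 0 := by
    intro n hn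
    simp only [hf]
    split_ifs with h1
    · obtain ⟨k, rfl⟩ := h1
      rcases Nat.eq_zero_or_pos k with rfl | hk
      · have h2 : β A (d * 0) = 0 := hCB.1 A (d * 0) (fun h => by simp at h)
        rw [h2]
        simp
      · exact absurd ⟨k - 1, by simp only [hi]; congr 1; omega⟩ hn
    · simp
  have hfi : ∀ n', f (i n') = β A (d * (n' + 1)) ^ 2 *
      Real.exp (Real.sqrt Y / A * ((d * (n' + 1) : ℕ) : ℝ)) := by
    intro n'
    simp only [hf, hi]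
    rw [if_pos (Dvd.intro _ rfl)]
  obtain ⟨hs1, hs2⟩ := hsex ((d : ℝ) * Real.sqrt Y / A / 2) (by positivity)
  set M : ℝ := C1 ^ 2 * K ^ 2 / ((e : ℝ) ^ 2 * A * Real.sqrt Y) *
        Real.exp (-(2 * ((e : ℝ) ^ 2 * A / (m * Real.sqrt Y)))) *
        (d : ℝ) ^ (ε - 1) * Real.exp (-((d : ℝ) * Real.sqrt Y / A / 2)) with hM
  have hM0 : 0 ≤ M := by positivity
  have hle : ∀ n', f (i n') ≤ M * (((n' : ℝ) + 1) ^ (ε - 1) *
        Real.exp (-((d : ℝ) * Real.sqrt Y / A / 2 * ((n' : ℝ) + 1)))) := by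
    intro n'
    rw [hfi]
    exact blk_term ε C1 K hK hC1 htau a e m Y he hm hY β hCB A d hA hd n'
  have hnn : ∀ n', 0 ≤ f (i n') := by
    intro n'
    simp only [hf]
    positivity
  have hsum : Summable (fun n' => f (i n')) :=
    Summable.of_nonneg_of_le hnn hle (hs1.mul_left M)
  refine ⟨(hinj.summable_iff hsupp).1 hsum, ?_⟩
  rw [← hinj.tsum_eq (f := f) (by
    intro n hn
    by_contra hcon
    exact hn (hsupp n hcon))]
  refine (Summable.tsum_le_tsum hle hsum (hs1.mul_left M)).trans ?_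
  rw [tsum_mul_left]
  exact mul_le_mul_of_nonneg_left hs2 hM0

/-- The coefficients with greatest common divisor `d`. -/
theorem blk_ck (hGVA : T_GVA) (β : ℕ → ℝ) (A k d : ℕ) (hA : 1 ≤ A) (hk : Nat.gcd k A = d) :
    ck β A k = ck (fun n => if d ∣ n then β n else 0) A k := by
  unfold ck
  congr 1
  apply tsum_congr
  intro n
  by_cases h : d ∣ n
  · simp only [if_pos h]
  · rw [hGVA n A k hA (by rw [hk]; exact h)]
    simp

theorem blk_card (a Q : ℕ) (ha : 1 ≤ a) :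
    (((Finset.Ico Q (2 * Q)).filter (fun A => a ∣ A)).card : ℝ) ≤ 2 * Q / a := by
  have har : (0 : ℝ) < a := by exact_mod_cast ha
  have h1 : (Finset.Ico Q (2 * Q)).filter (fun A => a ∣ A) ⊆
      (Finset.Ioc 0 (2 * Q)).filter (fun A => a ∣ A) := by
    intro x hx
    rw [Finset.mem_filter, Finset.mem_Ico] at hx
    rw [Finset.mem_filter, Finset.mem_Ioc]
    exact ⟨⟨by omega, by omega⟩, hx.2⟩
  have h2 := Finset.card_le_card h1
  rw [Nat.Ioc_filter_dvd_card_eq_div] at h2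
  have h3 : (((2 * Q) / a : ℕ) : ℝ) ≤ ((2 * Q : ℕ) : ℝ) / a := Nat.cast_div_le
  have h4 : (((Finset.Ico Q (2 * Q)).filter (fun A => a ∣ A)).card : ℝ) ≤ (((2 * Q) / a : ℕ) : ℝ) := by
    exact_mod_cast h2
  refine h4.trans (h3.trans (le_of_eq ?_))
  push_cast
  rfl

/-- The comparison of the bounds for one `A` in a block. -/
theorem blk_unif (ε C1 C3 K e m sY A d q : ℝ) (hε : 0 < ε) (hC3 : 0 < C3) (he : 0 < e)
    (hm : 0 < m) (hsY : 0 < sY) (hq : 0 < q) (hd : 0 < d) (hA1 : q ≤ A) (hA2 : A ≤ 2 * q) :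
    bnA ε C1 C3 K e m sY A d ≤ C1 ^ 2 * K ^ 2 / (e ^ 2 * q * sY) *
      Real.exp (-(2 * (e ^ 2 * (q / sY) / m))) * d ^ (ε - 1) *
      Real.exp (-(d / (4 * (q / sY)))) *
      (C3 * (d ^ (-(2 * ε)) * ((4 : ℝ) ^ (2 * ε) * (q / sY) ^ (2 * ε)))) := by
  have hA0 : 0 < A := hq.trans_le hA1
  have h1 : C1 ^ 2 * K ^ 2 / (e ^ 2 * A * sY) ≤ C1 ^ 2 * K ^ 2 / (e ^ 2 * q * sY) := by
    apply div_le_div_of_nonneg_left (by positivity) (by positivity)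
    gcongr
  have h2 : Real.exp (-(2 * (e ^ 2 * A / (m * sY)))) ≤
      Real.exp (-(2 * (e ^ 2 * (q / sY) / m))) := by
    apply Real.exp_le_exp.2
    have h3 : e ^ 2 * (q / sY) / m = e ^ 2 * q / (m * sY) := by field_simp
    rw [h3]
    have h4 : e ^ 2 * q / (m * sY) ≤ e ^ 2 * A / (m * sY) := by gcongr
    linarith
  have h5 : d / (4 * (q / sY)) ≤ d * sY / A / 2 := by
    have h6 : d / (4 * (q / sY)) = d * sY / (4 * q) := by field_simp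
    rw [h6, div_div]
    apply div_le_div_of_nonneg_left (by positivity) (by positivity)
    linarith
  have h7 : Real.exp (-(d * sY / A / 2)) ≤ Real.exp (-(d / (4 * (q / sY)))) :=
    Real.exp_le_exp.2 (by linarith)
  have h8 : (d * sY / A / 2) ^ (-(ε - 1 + 1 + ε)) ≤
      d ^ (-(2 * ε)) * ((4 : ℝ) ^ (2 * ε) * (q / sY) ^ (2 * ε)) := by
    have h9 : -(ε - 1 + 1 + ε) = -(2 * ε) := by ring
    rw [h9]
    refine (Real.rpow_le_rpow_of_nonpos (by positivity) h5 (by linarith)).trans (le_of_eq ?_)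
    rw [← Real.mul_rpow (by norm_num) (by positivity), Real.div_rpow hd.le (by positivity),
      Real.rpow_neg (by positivity : (0 : ℝ) ≤ 4 * (q / sY)), div_inv_eq_mul]
  unfold bnA
  gcongr

theorem blk_one (hGVA : T_GVA) (hCKS : T_CKS) (ε C1 C2 C3 K : ℝ) (hε : 0 < ε) (hK : 0 ≤ K)
    (hC1 : 0 < C1) (hC2 : 0 < C2) (hC3 : 0 < C3)
    (htau : ∀ n : ℕ, 1 ≤ n → tau n ≤ C1 * (n : ℝ) ^ (ε / 2))
    (htau2 : ∀ n : ℕ, 1 ≤ n → tau n ≤ C2 * (n : ℝ) ^ ε)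
    (hsex : ∀ x : ℝ, 0 < x →
      Summable (fun n : ℕ => ((n : ℝ) + 1) ^ (ε - 1) * Real.exp (-(x * ((n : ℝ) + 1)))) ∧
      ∑' n : ℕ, ((n : ℝ) + 1) ^ (ε - 1) * Real.exp (-(x * ((n : ℝ) + 1))) ≤
        C3 * x ^ (-(ε - 1 + 1 + ε))) (a e m Y : ℕ)
    (he : 1 ≤ e) (hm : 1 ≤ m) (hY : 1 ≤ Y) (β : ℕ → ℕ → ℝ) (hCB : CB K a e m Y β) (A d Q : ℕ)
    (hQ : 1 ≤ Q) (hAQ : A ∈ Finset.Ico Q (2 * Q)) (hd : 1 ≤ d) :
    ∑ k ∈ (Finset.range (4 * A)).filter (fun k => Nat.gcd k A = d), ‖ck (β A) A k‖ ^ 2 ≤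
      (C2 * ((2 : ℝ) ^ ε * ((Q / Real.sqrt Y) ^ ε * (Real.sqrt Y) ^ ε)) *
        (2 * (1 + Real.sqrt ((Q / Real.sqrt Y) / Real.sqrt Y)))) *
      (C1 ^ 2 * K ^ 2 / ((e : ℝ) ^ 2 * Q * Real.sqrt Y) *
      Real.exp (-(2 * ((e : ℝ) ^ 2 * (Q / Real.sqrt Y) / m))) * (d : ℝ) ^ (ε - 1) *
      Real.exp (-((d : ℝ) / (4 * (Q / Real.sqrt Y)))) *
      (C3 * ((d : ℝ) ^ (-(2 * ε)) * ((4 : ℝ) ^ (2 * ε) * (Q / Real.sqrt Y) ^ (2 * ε))))) := by
  rw [Finset.mem_Ico] at hAQ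
  have hA : 1 ≤ A := by omega
  have hYr : (0 : ℝ) < Y := by exact_mod_cast hY
  have hAr : (0 : ℝ) < A := by exact_mod_cast hA
  have hQr : (0 : ℝ) < Q := by exact_mod_cast hQ
  have hdr : (0 : ℝ) < d := by exact_mod_cast hd
  have her : (0 : ℝ) < e := by exact_mod_cast he
  have hmr : (0 : ℝ) < m := by exact_mod_cast hm
  have hA1 : (Q : ℝ) ≤ A := by exact_mod_cast hAQ.1
  have hA2 : (A : ℝ) ≤ 2 * Q := by
    have : A ≤ 2 * Q := by omega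
    exact_mod_cast this
  set sY : ℝ := Real.sqrt Y with hsY
  have hsY0 : 0 < sY := Real.sqrt_pos.2 hYr
  obtain ⟨hser, hser2⟩ := blk_series ε C1 C3 K hK hC1 htau hsex a e m Y he hm hY β hCB A d hA hd
  have h1 : ∑ k ∈ (Finset.range (4 * A)).filter (fun k => Nat.gcd k A = d),
      ‖ck (β A) A k‖ ^ 2 =
      ∑ k ∈ (Finset.range (4 * A)).filter (fun k => Nat.gcd k A = d),
      ‖ck (fun n => if d ∣ n then β A n else 0) A k‖ ^ 2 := by
    apply Finset.sum_congr rfl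
    intro k hk
    rw [Finset.mem_filter] at hk
    rw [blk_ck hGVA (β A) A k d hA hk.2]
  have h2 := hCKS A (sY / A) (fun n => if d ∣ n then β A n else 0) hA (by positivity) hser
  have h3 : ∑ k ∈ (Finset.range (4 * A)).filter (fun k => Nat.gcd k A = d),
      ‖ck (fun n => if d ∣ n then β A n else 0) A k‖ ^ 2 ≤
      ∑ k ∈ Finset.range (4 * A), ‖ck (fun n => if d ∣ n then β A n else 0) A k‖ ^ 2 :=
    Finset.sum_le_sum_of_subset_of_nonneg (Finset.filter_subset _ _)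
      (fun _ _ _ => by positivity)
  rw [h1]
  refine h3.trans (h2.trans ?_)
  have h4 := blk_unif ε C1 C3 K e m sY A d Q hε hC3 her hmr hsY0 hQr hdr hA1 hA2
  have h5 : tau A ≤ C2 * ((2 : ℝ) ^ ε * ((Q / sY) ^ ε * sY ^ ε)) := by
    refine (htau2 A hA).trans ?_
    apply mul_le_mul_of_nonneg_left _ hC2.le
    rw [← Real.mul_rpow (by positivity) hsY0.le, ← Real.mul_rpow (by norm_num) (by positivity),
      div_mul_cancel₀ _ hsY0.ne']
    exact Real.rpow_le_rpow hAr.le hA2 hε.le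
  have h6 : 1 + 1 / (sY / A * Real.sqrt A) ≤ 2 * (1 + Real.sqrt ((Q / sY) / sY)) := by
    have h7 : 1 / (sY / A * Real.sqrt A) = Real.sqrt A / sY := by
      have h8 : Real.sqrt A * Real.sqrt A = A := Real.mul_self_sqrt hAr.le
      have h9 : 0 < Real.sqrt A := Real.sqrt_pos.2 hAr
      rw [div_eq_div_iff (by positivity) (by positivity)]
      field_simp
      nlinarith
    have h8 : Real.sqrt A ≤ 2 * Real.sqrt Q := by
      have h9 : (2 : ℝ) * Real.sqrt Q = Real.sqrt (4 * Q) := by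
        rw [Real.sqrt_mul (by norm_num)]
        have : Real.sqrt 4 = 2 := by
          rw [show (4 : ℝ) = 2 ^ 2 by norm_num]
          exact Real.sqrt_sq (by norm_num)
        rw [this]
      rw [h9]
      exact Real.sqrt_le_sqrt (by linarith)
    have h10 : Real.sqrt ((Q / sY) / sY) = Real.sqrt Q / sY := by
      rw [div_div, Real.sqrt_div hQr.le, Real.sqrt_mul_self hsY0.le]
    rw [h7, h10]
    have h11 : Real.sqrt A / sY ≤ 2 * Real.sqrt Q / sY := div_le_div_of_nonneg_right h8 hsY0.le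
    have h12 : 2 * Real.sqrt Q / sY = 2 * (Real.sqrt Q / sY) := by ring
    linarith
  have htau0 : 0 ≤ tau A := by unfold tau; positivity
  have hts0 : 0 ≤ ∑' n : ℕ, (if d ∣ n then β A n else 0) ^ 2 * Real.exp (sY / A * (n : ℝ)) :=
    tsum_nonneg (fun n => by positivity)
  exact mul_le_mul (mul_le_mul h5 h6 (by positivity) (by positivity)) (hser2.trans h4) hts0
    (by positivity)

theorem blk_alg (CL C1 C2 C3 K e a d sY R S X1 X2 D1 D2 R1 R2 W1 W2 Z1 : ℝ) (he : 0 < e)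
    (ha : 0 < a) (hsY : 0 < sY) (hR : 0 < R) :
    CL * (sY * sY + (R * sY) ^ 2 / (d * a)) * (2 * (R * sY) / a *
      ((C2 * (W1 * (R1 * Z1)) * (2 * (1 + S))) *
      (C1 ^ 2 * K ^ 2 / (e ^ 2 * (R * sY) * sY) * X1 * D1 * X2 *
      (C3 * (D2 * (W2 * R2)))))) =
      (CL * C1 ^ 2 * C2 * C3 * 4 * W1 * W2 * K ^ 2 * ((sY * Z1) / (e ^ 2 * a) *
      (D1 * D2) * (R1 * R2) * X1 * X2)) *
      ((1 + R ^ 2 / (d * a)) * (1 + S)) := by
  have h1 : sY * sY + (R * sY) ^ 2 / (d * a) = sY * sY * (1 + R ^ 2 / (d * a)) := by ring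
  have h2 : sY * sY * (2 * (R * sY) / a) * (C1 ^ 2 * K ^ 2 / (e ^ 2 * (R * sY) * sY)) =
      2 * C1 ^ 2 * K ^ 2 * (sY / (e ^ 2 * a)) := by
    field_simp
  have h3 : (sY * Z1) / (e ^ 2 * a) = sY / (e ^ 2 * a) * Z1 := by ring
  rw [h1, h3]
  generalize 1 + R ^ 2 / (d * a) = G
  generalize 2 * (R * sY) / a = P1 at h2 ⊢
  generalize C1 ^ 2 * K ^ 2 / (e ^ 2 * (R * sY) * sY) = P2 at h2 ⊢
  generalize sY / (e ^ 2 * a) = P3 at h2 ⊢
  calc CL * (sY * sY * G) * (P1 * (C2 * (W1 * (R1 * Z1)) * (2 * (1 + S)) *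
        (P2 * X1 * D1 * X2 * (C3 * (D2 * (W2 * R2))))))
      = (sY * sY * P1 * P2) * (CL * G * C2 * W1 * R1 * Z1 * (2 * (1 + S)) * X1 * D1 * X2 * C3 *
        D2 * W2 * R2) := by ring
    _ = _ := by rw [h2]; ring

theorem pf_BLK (hGVA : T_GVA) (hCKS : T_CKS) (hLSB : T_LSB) (hDVB : T_DVB) (hSEX : T_SEX) :
    T_BLK := by
  intro ε hε0 hε1
  obtain ⟨CL, hCL0, hL⟩ := hLSB
  obtain ⟨C1, hC1, hD1⟩ := hDVB (ε / 2) (by positivity)
  obtain ⟨C2, hC2, hD2⟩ := hDVB ε hε0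
  obtain ⟨C3, hC3, hS⟩ := hSEX (ε - 1) ε (by linarith) hε0.le
  set CC : ℝ := CL * C1 ^ 2 * C2 * C3 * 4 * (2 : ℝ) ^ ε * (4 : ℝ) ^ (2 * ε) with hCC
  have hCC0 : 0 < CC := by positivity
  refine ⟨Real.sqrt CC, Real.sqrt_pos.2 hCC0, ?_⟩
  intro a e m Y j d K β ha he hm hY hK hCB
  rcases Nat.eq_zero_or_pos d with rfl | hd
  · have h1 : ∀ D, Fb β a j 0 D = 0 := by
      intro D
      unfold Fb
      apply Finset.sum_eq_zero
      intro A hA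
      rw [Finset.mem_filter, Finset.mem_Ico] at hA
      apply Finset.sum_eq_zero
      intro k hk
      rw [Finset.mem_filter] at hk
      have h2 := (Nat.gcd_eq_zero_iff.1 hk.2).2
      have h3 : 0 < 2 ^ j := by positivity
      omega
    simp only [h1]
    simp
    positivity
  have hYr : (0 : ℝ) < Y := by exact_mod_cast hY
  have hdr : (0 : ℝ) < d := by exact_mod_cast hd
  have har : (0 : ℝ) < a := by exact_mod_cast ha
  have her : (0 : ℝ) < e := by exact_mod_cast he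
  have hmr : (0 : ℝ) < m := by exact_mod_cast hm
  set Q : ℕ := 2 ^ j with hQ
  have hQ1 : 1 ≤ Q := Nat.one_le_two_pow
  have hQr : (0 : ℝ) < Q := by exact_mod_cast hQ1
  have hQc : ((2 : ℝ) ^ j) = (Q : ℝ) := by rw [hQ]; push_cast; rfl
  have hQ2 : 2 ^ (j + 1) = 2 * Q := by rw [hQ]; ring
  set sY : ℝ := Real.sqrt Y with hsY
  have hsY0 : 0 < sY := Real.sqrt_pos.2 hYr
  have hYs : (Y : ℝ) = sY * sY := (Real.mul_self_sqrt hYr.le).symm
  set R : ℝ := Q / sY with hR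
  have hR0 : 0 < R := by positivity
  set S : ℝ := Real.sqrt (R / sY) with hSdef
  have hS0 : 0 ≤ S := Real.sqrt_nonneg _
  set U : ℝ := (C2 * ((2 : ℝ) ^ ε * (R ^ ε * sY ^ ε)) * (2 * (1 + S))) *
      (C1 ^ 2 * K ^ 2 / ((e : ℝ) ^ 2 * Q * sY) *
      Real.exp (-(2 * ((e : ℝ) ^ 2 * R / m))) * (d : ℝ) ^ (ε - 1) *
      Real.exp (-((d : ℝ) / (4 * R))) *
      (C3 * ((d : ℝ) ^ (-(2 * ε)) * ((4 : ℝ) ^ (2 * ε) * R ^ (2 * ε))))) with hU
  have hU0 : 0 ≤ U := by positivity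
  have hone : ∀ A ∈ (Finset.Ico Q (2 * Q)).filter (fun A => a ∣ A),
      ∑ k ∈ (Finset.range (4 * A)).filter (fun k => Nat.gcd k A = d), ‖ck (β A) A k‖ ^ 2 ≤ U := by
    intro A hA
    rw [Finset.mem_filter] at hA
    exact blk_one hGVA hCKS ε C1 C2 C3 K hε0 hK hC1 hC2 hC3 (fun n hn => (hD1 n hn).1)
      (fun n hn => (hD2 n hn).1) hS a e m Y he hm hY β hCB A d Q hQ1 hA.1 hd
  have h1 := hL a d Q Y (fun A k => ck (β A) A k) ha hd hQ1 hY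
  have h2 : ∑ D ∈ Finset.Ico Y (2 * Y), ‖Fb β a j d D‖ ^ 2 ≤
      CL * (Y + (Q : ℝ) ^ 2 / (d * a)) * (2 * Q / a * U) := by
    unfold Fb
    rw [hQ2]
    refine h1.trans ?_
    apply mul_le_mul_of_nonneg_left _ (by positivity)
    refine (Finset.sum_le_sum hone).trans ?_
    rw [Finset.sum_const, nsmul_eq_mul]
    exact mul_le_mul_of_nonneg_right (blk_card a Q ha) hU0
  refine h2.trans ?_
  -- the square of the bound
  have hBb : Bb ε a e m Y j d = (Y : ℝ) ^ (1 / 4 + ε / 4) / ((e : ℝ) * Real.sqrt a) *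
      (1 + R / Real.sqrt ((d : ℝ) * a)) * (1 + S) * (d : ℝ) ^ (-((1 + ε) / 2)) *
      R ^ (3 * ε / 2) * Real.exp (-((e : ℝ) ^ 2 * R / m)) *
      Real.exp (-((d : ℝ) / (8 * R))) := by
    unfold Bb
    rw [if_pos (by omega : 1 ≤ d), hQc]
  have hy : ((Y : ℝ) ^ (1 / 4 + ε / 4)) ^ 2 = sY * sY ^ ε := by
    rw [← Real.rpow_natCast, ← Real.rpow_mul hYr.le, hsY, Real.sqrt_eq_rpow, ← Real.rpow_mul hYr.le,
      ← Real.rpow_add hYr]
    congr 1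
    push_cast
    ring
  have hdd : ((d : ℝ) ^ (-((1 + ε) / 2))) ^ 2 = (d : ℝ) ^ (ε - 1) * (d : ℝ) ^ (-(2 * ε)) := by
    rw [← Real.rpow_natCast, ← Real.rpow_mul hdr.le, ← Real.rpow_add hdr]
    congr 1
    push_cast
    ring
  have hRR : (R ^ (3 * ε / 2)) ^ 2 = R ^ ε * R ^ (2 * ε) := by
    rw [← Real.rpow_natCast, ← Real.rpow_mul hR0.le, ← Real.rpow_add hR0]
    congr 1
    push_cast
    ring
  have hx1 : Real.exp (-((e : ℝ) ^ 2 * R / m)) ^ 2 =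
      Real.exp (-(2 * ((e : ℝ) ^ 2 * R / m))) := by
    rw [← Real.exp_nat_mul]
    congr 1
    push_cast
    ring
  have hx2 : Real.exp (-((d : ℝ) / (8 * R))) ^ 2 = Real.exp (-((d : ℝ) / (4 * R))) := by
    rw [← Real.exp_nat_mul]
    congr 1
    push_cast
    field_simp
    ring
  have hsq : (Real.sqrt CC * K * Bb ε a e m Y j d) ^ 2 =
      CC * K ^ 2 * ((sY * sY ^ ε) / ((e : ℝ) ^ 2 * a) *
      (1 + R / Real.sqrt ((d : ℝ) * a)) ^ 2 * (1 + S) ^ 2 *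
      ((d : ℝ) ^ (ε - 1) * (d : ℝ) ^ (-(2 * ε))) * (R ^ ε * R ^ (2 * ε)) *
      Real.exp (-(2 * ((e : ℝ) ^ 2 * R / m))) * Real.exp (-((d : ℝ) / (4 * R)))) := by
    rw [hBb, mul_pow, mul_pow, Real.sq_sqrt hCC0.le, mul_pow, mul_pow, mul_pow, mul_pow, mul_pow,
      mul_pow, div_pow, mul_pow, Real.sq_sqrt har.le, hy, hdd, hRR, hx1, hx2]
  rw [hsq]
  have hQR : (Q : ℝ) = R * sY := by rw [hR]; field_simp
  have hfac : (1 + R ^ 2 / ((d : ℝ) * a)) * (1 + S) ≤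
      (1 + R / Real.sqrt ((d : ℝ) * a)) ^ 2 * (1 + S) ^ 2 := by
    have h3 : (R / Real.sqrt ((d : ℝ) * a)) ^ 2 = R ^ 2 / ((d : ℝ) * a) := by
      rw [div_pow, Real.sq_sqrt (by positivity)]
    have h4 : 0 ≤ R / Real.sqrt ((d : ℝ) * a) := by positivity
    apply mul_le_mul _ _ (by positivity) (by positivity)
    · nlinarith
    · nlinarith
  have hmain : CL * (Y + (Q : ℝ) ^ 2 / (d * a)) * (2 * Q / a * U) =
      (CC * K ^ 2 * ((sY * sY ^ ε) / ((e : ℝ) ^ 2 * a) *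
      ((d : ℝ) ^ (ε - 1) * (d : ℝ) ^ (-(2 * ε))) * (R ^ ε * R ^ (2 * ε)) *
      Real.exp (-(2 * ((e : ℝ) ^ 2 * R / m))) * Real.exp (-((d : ℝ) / (4 * R))))) *
      ((1 + R ^ 2 / ((d : ℝ) * a)) * (1 + S)) := by
    rw [hU, hCC]
    generalize Real.exp (-(2 * ((e : ℝ) ^ 2 * R / m))) = X1
    generalize Real.exp (-((d : ℝ) / (4 * R))) = X2
    generalize (d : ℝ) ^ (ε - 1) = D1
    generalize (d : ℝ) ^ (-(2 * ε)) = D2
    generalize R ^ ε = R1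
    generalize R ^ (2 * ε) = R2
    generalize (2 : ℝ) ^ ε = W1
    generalize (4 : ℝ) ^ (2 * ε) = W2
    generalize sY ^ ε = Z1
    rw [hYs, hQR]
    exact blk_alg CL C1 C2 C3 K e a d sY R S X1 X2 D1 D2 R1 R2 W1 W2 Z1 her har hsY0 hR0
  rw [hmain]
  refine (mul_le_mul_of_nonneg_left hfac (by positivity)).trans (le_of_eq ?_)
  generalize (1 + R / Real.sqrt ((d : ℝ) * a)) ^ 2 = G1
  generalize (1 + S) ^ 2 = G2
  generalize (sY * sY ^ ε) / ((e : ℝ) ^ 2 * a) = G3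
  ring

end Pool.Agent.H79.AD
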